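import Mathlib
import Pool.Agent.TH444.TW.RSK
import Pool.Agent.TH377.IG.Bc2
import Pool.Agent.N70.EP.Stm


/-!
# Pull-back of regular steps
-/

set_option autoImplicit false

namespace Pool.Agent.N75.EP

open Polynomial
open Pool.Agent.H391R2.T4 (exists_equiv_of_ker RegSol)
open Pool.Agent.TH377.IG (FP prFP exists_comp' extend_aut minpoly_reg)
open scoped IntermediateField

/-- Constants of a compositum. -/
theorem reg_of_finrank {L B F F₁ : Type} [Field L] [Field B] [Field F] [Field F₁] [Algebra L F]
    [Algebra F F₁] [Algebra L F₁] [IsScalarTower L F F₁] [Algebra L B] [Algebra B F₁]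
    [IsScalarTower L B F₁] [FiniteDimensional L B] [Algebra.IsSeparable L B]
    [FiniteDimensional F F₁] [Algebra.IsSeparable F F₁]
    (hreg : ∀ y : F, IsAlgebraic L y → y ∈ Set.range (algebraMap L F))
    (hle : Module.finrank F F₁ ≤ Module.finrank L B) (y : F₁) (hy : IsAlgebraic B y) :
    y ∈ Set.range (algebraMap B F₁) := by
  have halg : Algebra.IsAlgebraic L B := Algebra.IsAlgebraic.of_finite L B
  have hyL : IsAlgebraic L y := hy.restrictScalars L
  have hint : IsIntegral L y := hyL.isIntegral
  have hsep : IsSeparable L y := by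
    have h1 : (minpoly F y).Separable := Algebra.IsSeparable.isSeparable F y
    rw [minpoly_reg hreg y hint, Polynomial.separable_map] at h1
    exact h1
  let R : IntermediateField L F₁ := (IsScalarTower.toAlgHom L B F₁).fieldRange
  let eR : B ≃ₐ[L] R := AlgEquiv.ofInjectiveField (IsScalarTower.toAlgHom L B F₁)
  have hR : FiniteDimensional L R := eR.toLinearEquiv.finiteDimensional
  have hRs : R ≤ separableClosure L F₁ := by
    rintro x ⟨b, rfl⟩
    rw [mem_separableClosure_iff]
    have h4 : IsSeparable L b := Algebra.IsSeparable.isSeparable L b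
    exact h4.map (IsScalarTower.toAlgHom L B F₁) (algebraMap B F₁).injective
  have hyf : FiniteDimensional L L⟮y⟯ := IntermediateField.adjoin.finiteDimensional hint
  let C : IntermediateField L F₁ := R ⊔ L⟮y⟯
  have hCf : FiniteDimensional L C := IntermediateField.finiteDimensional_sup R L⟮y⟯
  have hCs : C ≤ separableClosure L F₁ := by
    refine sup_le hRs ?_
    rw [IntermediateField.adjoin_simple_le_iff, mem_separableClosure_iff]
    exact hsep
  have hCsep : Algebra.IsSeparable L C := by
    rw [← le_separableClosure_iff]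
    exact hCs
  obtain ⟨c, hc⟩ := Field.exists_primitive_element L C
  have h1 := (Field.primitive_element_iff_minpoly_natDegree_eq L c).1 hc
  have h2 : minpoly L c = minpoly L (c : F₁) :=
    (minpoly.algebraMap_eq (algebraMap C F₁).injective c).symm
  have hci : IsIntegral L (c : F₁) := (Algebra.IsIntegral.isIntegral (R := L) c).algebraMap
  have h3 : (minpoly L (c : F₁)).natDegree ≤ Module.finrank F F₁ := by
    have h4 := minpoly.natDegree_le (A := F) (c : F₁)
    rw [minpoly_reg hreg _ hci, natDegree_map] at h4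
    exact h4
  have h5 : Module.finrank L C ≤ Module.finrank L R := by
    rw [← h1, h2, ← eR.toLinearEquiv.finrank_eq]
    exact h3.trans hle
  have h6 : R = C := IntermediateField.eq_of_le_of_finrank_le le_sup_left h5
  have h7 : y ∈ R := by
    rw [h6]
    exact (le_sup_right : L⟮y⟯ ≤ C) (IntermediateField.mem_adjoin_simple_self L y)
  exact h7

/-- Base change of regular solutions. -/
theorem base_change_reg (K L H : Type) [Field K] [Field L] [Algebra K L] [FiniteDimensional K L]
    [IsGalois K L] [Group H] [Finite H] (α : H →* (L ≃ₐ[K] L)) (hreg : RegSol K L H α)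
    (B : Type) [Field B] [Algebra K B] [FiniteDimensional K B] [IsGalois K B] [Algebra L B]
    [IsScalarTower K L B] :
    RegSol K B (FP α (AlgEquiv.restrictNormalHom (F := K) (K₁ := B) L))
      (prFP α (AlgEquiv.restrictNormalHom (F := K) (K₁ := B) L)) := by
  classical
  obtain ⟨F, i1, i2, i3, i4, i5, i6, i7, i8, γ, hγ, hr⟩ := hreg
  obtain ⟨N, c1, c2, c3, c4, c5, c6, c7, hN⟩ := exists_comp' (K := K) (L := L) (B := B)
    (E := RatFunc K) (F := F)
  let aKN : Algebra K N := ((algebraMap (RatFunc K) N).comp (algebraMap K (RatFunc K))).toAlgebra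
  have t1 : IsScalarTower K (RatFunc K) N := IsScalarTower.of_algebraMap_eq fun x => rfl
  have t2 : IsScalarTower K F N := IsScalarTower.of_algebraMap_eq fun x => by
    rw [IsScalarTower.algebraMap_apply K (RatFunc K) F,
      ← IsScalarTower.algebraMap_apply (RatFunc K) F N]
    rfl
  have t3 : IsScalarTower K B N := IsScalarTower.of_algebraMap_eq fun x => by
    rw [IsScalarTower.algebraMap_apply K L B, hN, ← IsScalarTower.algebraMap_apply K L F,
      ← IsScalarTower.algebraMap_apply K F N]
  let aLN : Algebra L N := ((algebraMap F N).comp (algebraMap L F)).toAlgebra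
  have t4 : IsScalarTower L F N := IsScalarTower.of_algebraMap_eq fun x => rfl
  have t5 : IsScalarTower L B N := IsScalarTower.of_algebraMap_eq fun x => (hN x).symm
  have hLB : FiniteDimensional L B := Module.Finite.of_restrictScalars_finite K L B
  have hLs : Algebra.IsSeparable L B := Algebra.isSeparable_tower_top_of_isSeparable K L B
  have hNF : IsGalois F N := IsGalois.tower_top_of_isGalois (RatFunc K) F N
  let resL : (B ≃ₐ[K] B) →* (L ≃ₐ[K] L) := AlgEquiv.restrictNormalHom L
  have hresL : ∀ (ρ : B ≃ₐ[K] B) (x : L), algebraMap L B (resL ρ x) = ρ (algebraMap L B x) :=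
    fun ρ x => AlgEquiv.restrictNormal_commutes ρ L x
  let resF : (N ≃ₐ[RatFunc K] N) →* (F ≃ₐ[RatFunc K] F) := AlgEquiv.restrictNormalHom F
  have hresF : ∀ (σ : N ≃ₐ[RatFunc K] N) (x : F), algebraMap F N (resF σ x) =
      σ (algebraMap F N x) := fun σ x => AlgEquiv.restrictNormal_commutes σ F x
  have hressurj : Function.Surjective resF := AlgEquiv.restrictNormalHom_surjective N
  let resB : (N ≃ₐ[RatFunc K] N) →* (B ≃ₐ[K] B) :=
    (AlgEquiv.restrictNormalHom (F := K) (K₁ := N) B).comp (AlgEquiv.restrictScalarsHom K)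
  have hresB : ∀ (σ : N ≃ₐ[RatFunc K] N) (x : B), algebraMap B N (resB σ x) =
      σ (algebraMap B N x) := fun σ x =>
    AlgEquiv.restrictNormal_commutes (σ.restrictScalars K) B x
  have hcompat : ∀ σ : N ≃ₐ[RatFunc K] N, α (γ (resF σ)) = resL (resB σ) := by
    intro σ
    apply AlgEquiv.ext
    intro x
    apply (algebraMap L N).injective
    change algebraMap F N (algebraMap L F _) = algebraMap L N _
    rw [← hγ, hresF, IsScalarTower.algebraMap_apply L B N, hresL, hresB, hN]
  let π : (N ≃ₐ[RatFunc K] N) →* FP α resL :=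
    MonoidHom.codRestrict ((γ.toMonoidHom.comp resF).prod resB) (FP α resL) hcompat
  have hπ : ∀ σ, (π σ : H × (B ≃ₐ[K] B)) = (γ (resF σ), resB σ) := fun σ => rfl
  have hπsurj : Function.Surjective π := by
    rintro ⟨⟨h, ρ⟩, hρ⟩
    have hρ' : α h = resL ρ := hρ
    obtain ⟨σ₁, hσ₁⟩ := hressurj (γ.symm h)
    have h1 : γ (resF σ₁) = h := by rw [hσ₁, MulEquiv.apply_symm_apply]
    obtain ⟨ρ', hρd⟩ : ∃ ρ', ρ' = (resB σ₁)⁻¹ * ρ := ⟨_, rfl⟩
    have h2 : resL ρ' = 1 := by
      rw [hρd, map_mul, map_inv, ← hcompat, h1, hρ', inv_mul_cancel]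
    let ρ'' : B ≃ₐ[L] B := AlgEquiv.ofRingEquiv (f := (ρ' : B ≃+* B)) (fun x => by
      change ρ' (algebraMap L B x) = algebraMap L B x
      rw [← hresL, h2]
      rfl)
    obtain ⟨σ₂, hσ₂⟩ := extend_aut (N := N) hr ρ''
    refine ⟨σ₁ * σ₂.restrictScalars (RatFunc K), ?_⟩
    apply Subtype.ext
    rw [hπ]
    apply Prod.ext
    · change γ (resF (σ₁ * σ₂.restrictScalars (RatFunc K))) = h
      have h3 : resF (σ₂.restrictScalars (RatFunc K)) = 1 := by
        apply AlgEquiv.ext
        intro x
        apply (algebraMap F N).injective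
        rw [hresF]
        exact σ₂.commutes x
      rw [map_mul, h3, mul_one, h1]
    · change resB (σ₁ * σ₂.restrictScalars (RatFunc K)) = ρ
      have h3 : resB (σ₂.restrictScalars (RatFunc K)) = ρ' := by
        apply AlgEquiv.ext
        intro x
        apply (algebraMap B N).injective
        rw [hresB]
        exact hσ₂ x
      rw [map_mul, h3, hρd, mul_inv_cancel_left]
  -- the fixed field of the kernel
  let F₁ := IntermediateField.fixedField π.ker
  have hgal : IsGalois (RatFunc K) F₁ := IsGalois.of_fixedField_normal_subgroup π.ker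
  have hker : (AlgEquiv.restrictNormalHom (F := RatFunc K) (K₁ := N) F₁).ker = π.ker := by
    ext σ
    rw [MonoidHom.mem_ker]
    constructor
    · intro h
      have h1 : σ ∈ F₁.fixingSubgroup := by
        rw [IntermediateField.mem_fixingSubgroup_iff]
        intro x hx
        have h2 := AlgEquiv.restrictNormal_commutes σ F₁ (⟨x, hx⟩ : F₁)
        have h3 : σ.restrictNormal F₁ = 1 := h
        rw [h3] at h2
        exact h2.symm
      rw [IntermediateField.fixingSubgroup_fixedField] at h1
      exact h1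
    · intro h
      apply AlgEquiv.ext
      intro x
      apply Subtype.ext
      have h1 := AlgEquiv.restrictNormal_commutes σ F₁ x
      exact h1.trans (x.2 ⟨σ, h⟩)
  obtain ⟨γ₁, hγ₁⟩ := exists_equiv_of_ker
    (AlgEquiv.restrictNormalHom (F := RatFunc K) (K₁ := N) F₁) π
    (AlgEquiv.restrictNormalHom_surjective N) hπsurj hker
  have hBF : ∀ x : B, algebraMap B N x ∈ F₁ := by
    rintro x ⟨τ, hτ⟩
    have h1 : π τ = 1 := hτ
    change τ (algebraMap B N x) = algebraMap B N x
    rw [← hresB]
    have h2 : resB τ = 1 := by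
      have h3 := congrArg (fun z : FP α resL => (z : H × (B ≃ₐ[K] B)).2) h1
      exact h3
    rw [h2]
    rfl
  have hFF : ∀ x : F, algebraMap F N x ∈ F₁ := by
    rintro x ⟨τ, hτ⟩
    have h1 : π τ = 1 := hτ
    change τ (algebraMap F N x) = algebraMap F N x
    rw [← hresF]
    have h2 : γ (resF τ) = 1 := by
      have h3 := congrArg (fun z : FP α resL => (z : H × (B ≃ₐ[K] B)).1) h1
      exact h3
    have h3 : resF τ = 1 := by
      rw [← map_one γ] at h2
      exact γ.injective h2
    rw [h3]
    rfl
  let aBF : Algebra B F₁ := ((algebraMap B N).codRestrict F₁ hBF).toAlgebra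
  have hBFv : ∀ x : B, ((algebraMap B F₁ x : F₁) : N) = algebraMap B N x := fun _ => rfl
  let aKF : Algebra K F₁ :=
    ((algebraMap (RatFunc K) F₁).comp (algebraMap K (RatFunc K))).toAlgebra
  have s1 : IsScalarTower K (RatFunc K) F₁ := IsScalarTower.of_algebraMap_eq fun x => rfl
  have s2 : IsScalarTower K B F₁ := IsScalarTower.of_algebraMap_eq fun x => by
    apply Subtype.ext
    rw [hBFv, ← IsScalarTower.algebraMap_apply K B N]
    rfl
  refine ⟨F₁, inferInstance, inferInstance, aBF, aKF, s1, s2, inferInstance, hgal, γ₁, ?_, ?_⟩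
  · intro τ' x
    obtain ⟨τ, rfl⟩ := AlgEquiv.restrictNormalHom_surjective (F := RatFunc K) (K₁ := F₁) N τ'
    apply Subtype.ext
    have h1 := AlgEquiv.restrictNormal_commutes τ F₁ (algebraMap B F₁ x)
    refine h1.trans ?_
    change τ (algebraMap B N x) = algebraMap B N (prFP α resL (γ₁ _) x)
    rw [hγ₁, ← hresB]
    rfl
  · let aFF : Algebra F F₁ := ((algebraMap F N).codRestrict F₁ hFF).toAlgebra
    have hFFv : ∀ x : F, ((algebraMap F F₁ x : F₁) : N) = algebraMap F N x := fun _ => rfl
    have u1 : IsScalarTower (RatFunc K) F F₁ := IsScalarTower.of_algebraMap_eq fun x => by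
      apply Subtype.ext
      rw [hFFv, ← IsScalarTower.algebraMap_apply (RatFunc K) F N]
      rfl
    let aLF : Algebra L F₁ := ((algebraMap F F₁).comp (algebraMap L F)).toAlgebra
    have u2 : IsScalarTower L F F₁ := IsScalarTower.of_algebraMap_eq fun x => rfl
    have u3 : IsScalarTower L B F₁ := IsScalarTower.of_algebraMap_eq fun x => by
      apply Subtype.ext
      rw [hBFv, hN]
      rfl
    have hfdF : FiniteDimensional F F₁ := Module.Finite.of_restrictScalars_finite (RatFunc K) F F₁
    have hgF : IsGalois F F₁ := IsGalois.tower_top_of_isGalois (RatFunc K) F F₁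
    have hgLB : IsGalois L B := IsGalois.tower_top_of_isGalois K L B
    refine reg_of_finrank (F := F) hr ?_
    rw [← IsGalois.card_aut_eq_finrank F F₁, ← IsGalois.card_aut_eq_finrank L B]
    -- lifts
    have hlift : ∀ σ : F₁ ≃ₐ[F] F₁, ∃ τ : N ≃ₐ[RatFunc K] N,
        ∀ x : F₁, ((σ x : F₁) : N) = τ (x : N) := by
      intro σ
      obtain ⟨τ, hτ⟩ := AlgEquiv.restrictNormalHom_surjective (F := RatFunc K) (K₁ := F₁) N
        (σ.restrictScalars (RatFunc K))
      refine ⟨τ, fun x => ?_⟩
      have h1 := AlgEquiv.restrictNormal_commutes τ F₁ x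
      have h2 : τ.restrictNormal F₁ = σ.restrictScalars (RatFunc K) := hτ
      rw [h2] at h1
      exact h1
    choose τ hτ using hlift
    have hτB : ∀ (σ : F₁ ≃ₐ[F] F₁) (x : B), σ (algebraMap B F₁ x) =
        algebraMap B F₁ (resB (τ σ) x) := by
      intro σ x
      apply Subtype.ext
      rw [hτ, hBFv, hBFv, hresB]
    let g : (F₁ ≃ₐ[F] F₁) → (B ≃ₐ[L] B) := fun σ =>
      AlgEquiv.ofRingEquiv (f := (resB (τ σ) : B ≃+* B)) (fun x => by
        change resB (τ σ) (algebraMap L B x) = algebraMap L B x
        apply (algebraMap B F₁).injective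
        rw [← hτB, ← IsScalarTower.algebraMap_apply L B F₁, IsScalarTower.algebraMap_apply L F F₁]
        exact σ.commutes _)
    have hg : ∀ (σ : F₁ ≃ₐ[F] F₁) (x : B), algebraMap B F₁ (g σ x) = σ (algebraMap B F₁ x) :=
      fun σ x => (hτB σ x).symm
    refine Nat.card_le_card_of_injective g ?_
    intro σ σ' hσ
    have h1 : resB (τ σ) = resB (τ σ') := by
      apply AlgEquiv.ext
      intro x
      exact congrArg (fun z : B ≃ₐ[L] B => z x) hσ
    have h2 : ∀ σ : F₁ ≃ₐ[F] F₁, resF (τ σ) = 1 := by
      intro σ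
      apply AlgEquiv.ext
      intro x
      apply (algebraMap F N).injective
      rw [hresF, ← hFFv, ← hτ, σ.commutes]
      rfl
    have h3 : π (τ σ) = π (τ σ') := by
      apply Subtype.ext
      rw [hπ, hπ, h2, h2, h1]
    have h4 : (τ σ')⁻¹ * τ σ ∈ π.ker := by
      rw [MonoidHom.mem_ker, map_mul, map_inv, h3, inv_mul_cancel]
    apply AlgEquiv.ext
    intro x
    apply Subtype.ext
    rw [hτ, hτ]
    have h5 : ((τ σ')⁻¹ * τ σ) (x : N) = x := x.2 ⟨_, h4⟩
    have h6 : (τ σ') (((τ σ')⁻¹ * τ σ) (x : N)) = τ σ (x : N) := by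
      change ((τ σ') * ((τ σ')⁻¹ * τ σ)) (x : N) = _
      rw [mul_inv_cancel_left]
    rw [← h6, h5]

/-- PUL -/
theorem t_pul : Pool.Agent.N70.EP.St_pul := by
  intro k₀ _ W W' Γ _ _ _ _ _ p r hr h K M _ _ _ _ _ _ _ ε
  classical
  let ρ : (M ≃ₐ[K] M) →* W := r.comp ε.toMonoidHom
  have hρ : Function.Surjective ρ := hr.comp ε.surjective
  let M₀ : IntermediateField K M := IntermediateField.fixedField ρ.ker
  have hgal : IsGalois K M₀ := IsGalois.of_fixedField_normal_subgroup ρ.ker
  have hker : (AlgEquiv.restrictNormalHom (F := K) (K₁ := M) M₀).ker = ρ.ker := by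
    ext σ
    rw [MonoidHom.mem_ker]
    constructor
    · intro h
      have h1 : σ ∈ M₀.fixingSubgroup := by
        rw [IntermediateField.mem_fixingSubgroup_iff]
        intro x hx
        have h2 := AlgEquiv.restrictNormal_commutes σ M₀ (⟨x, hx⟩ : M₀)
        have h3 : σ.restrictNormal M₀ = 1 := h
        rw [h3] at h2
        exact h2.symm
      rw [IntermediateField.fixingSubgroup_fixedField] at h1
      exact h1
    · intro h
      apply AlgEquiv.ext
      intro x
      apply Subtype.ext
      have h1 := AlgEquiv.restrictNormal_commutes σ M₀ x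
      exact h1.trans (x.2 ⟨σ, h⟩)
  obtain ⟨ε₀, hε₀⟩ := exists_equiv_of_ker
    (AlgEquiv.restrictNormalHom (F := K) (K₁ := M) M₀) ρ
    (AlgEquiv.restrictNormalHom_surjective M) hρ hker
  have h1 := h K M₀ ε₀
  have h2 := base_change_reg K M₀ W' _ h1 M
  have hiff : ∀ (x : W') (σ : M ≃ₐ[K] M), ε₀.symm.toMonoidHom.comp p x =
      AlgEquiv.restrictNormalHom (F := K) (K₁ := M) M₀ σ ↔ p x = r (ε σ) := by
    intro x σ
    change ε₀.symm (p x) = _ ↔ _
    rw [MulEquiv.symm_apply_eq, hε₀]
    rfl
  let e : FP (ε₀.symm.toMonoidHom.comp p)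
      (AlgEquiv.restrictNormalHom (F := K) (K₁ := M) M₀) ≃* FP p r :=
    { toFun := fun x => ⟨(x.1.1, ε x.1.2), (hiff _ _).1 x.2⟩
      invFun := fun x => ⟨(x.1.1, ε.symm x.1.2), (hiff _ _).2 (by
        change p x.1.1 = r (ε (ε.symm x.1.2))
        rw [MulEquiv.apply_symm_apply]
        exact x.2)⟩
      left_inv := fun x => by
        apply Subtype.ext
        apply Prod.ext
        · rfl
        · exact ε.symm_apply_apply _
      right_inv := fun x => by
        apply Subtype.ext
        apply Prod.ext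
        · rfl
        · exact ε.apply_symm_apply _
      map_mul' := fun x y => by
        apply Subtype.ext
        apply Prod.ext
        · rfl
        · exact map_mul ε _ _ }
  refine Pool.Agent.TH444.TW.regSol_equiv e _ _ ?_ h2
  intro g
  exact ε.symm_apply_apply _

end Pool.Agent.N75.EP
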